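import Pool.Agent.W478.T1.Ana

set_option autoImplicit false

open Polynomial Metric Set Topology

namespace W478T1

theorem T1 : W489.S_T1 := by
  intro m Y hY hne hirr
  obtain ⟨k, p, a, P, U, V, d₁, d₂, R, Q, hPm, hd₁, hd₂, hUV, hPY, hRY, hpt, hQ, hdom⟩ :=
    struct m Y hY hne hirr
  refine ⟨k, P.natDegree, p, d₁ * d₂, mul_ne_zero hd₁ hd₂, ?_, hdom, ?_⟩
  · intro r
    choose C hC using fun j => bound_root (Q j) (hQ j).1 r
    refine ⟨∑ j, |C j|, ?_⟩
    intro y hy hr
    rw [pi_norm_le_iff_of_nonneg (Finset.sum_nonneg fun _ _ => abs_nonneg _)]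
    intro j
    refine (hC j _ (y j) hr ((hQ j).2 y hy)).trans ((le_abs_self _).trans ?_)
    exact Finset.single_le_sum (f := fun j => |C j|) (fun _ _ => abs_nonneg _) (Finset.mem_univ j)
  · intro z hz
    rw [map_mul] at hz
    have hz1 : MvPolynomial.eval z d₁ ≠ 0 := left_ne_zero_of_mul hz
    have hz2 : MvPolynomial.eval z d₂ ≠ 0 := right_ne_zero_of_mul hz
    obtain ⟨r, ψ, hr, hψd, hψ⟩ := local_roots P U V hPm d₁ hUV z hz1
    have hcont : ∀ᶠ x in 𝓝 z, MvPolynomial.eval x (d₁ * d₂) ≠ 0 := by
      apply (MvPolynomial.continuous_eval (d₁ * d₂)).continuousAt.eventually_ne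
      rw [map_mul]
      exact hz
    obtain ⟨r', hr', hball⟩ := Metric.eventually_nhds_iff_ball.1 hcont
    refine ⟨min r r', lt_min hr hr', fun i x j =>
      eval₂ (MvPolynomial.eval x) (ψ i x) (R j) / MvPolynomial.eval x d₂, ?_, ?_⟩
    · intro i
      rw [differentiableOn_pi]
      intro j
      have h1 : DifferentiableOn ℂ (fun x => eval₂ (MvPolynomial.eval x) (ψ i x) (R j))
          (ball z (min r r')) := by
        have h2 : DifferentiableOn ℂ (fun x => ((x, ψ i x) : (Fin k → ℂ) × ℂ))
            (ball z (min r r')) :=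
          differentiableOn_id.prodMk
            ((hψd i).mono (ball_subset_ball (min_le_left _ _)))
        exact ((contDiff_eval₂ (R j)).differentiable one_ne_zero).comp_differentiableOn h2
      simp only [div_eq_mul_inv]
      refine h1.fun_mul
        (((contDiff_evalMv d₂).differentiable one_ne_zero).differentiableOn.fun_inv ?_)
      intro x hx
      have := hball x (ball_subset_ball (min_le_right _ _) hx)
      rw [map_mul] at this
      exact right_ne_zero_of_mul this
    · intro z' hz'
      have hδ := hball z' (ball_subset_ball (min_le_right _ _) hz')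
      have hδ2 : MvPolynomial.eval z' d₂ ≠ 0 := by
        rw [map_mul] at hδ
        exact right_ne_zero_of_mul hδ
      obtain ⟨hinj, hroots⟩ := hψ z' (ball_subset_ball (min_le_left _ _) hz')
      -- the point over ψ i z'
      have hpoint : ∀ i, ∃ y ∈ Y, (fun i => MvPolynomial.eval y (p i)) = z' ∧
          MvPolynomial.eval y a = ψ i z' ∧
          y = fun j => eval₂ (MvPolynomial.eval z') (ψ i z') (R j) / MvPolynomial.eval z' d₂ := by
        intro i
        obtain ⟨y, hy, h1, h2⟩ := hpt z' (ψ i z') ((hroots _).2 ⟨i, rfl⟩)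
        refine ⟨y, hy, h1, h2, ?_⟩
        funext j
        have := hRY y hy j
        rw [h1, h2] at this
        rw [this, mul_div_cancel_left₀ _ hδ2]
      refine ⟨hδ, ?_, ?_⟩
      · intro i j hij
        obtain ⟨y, hy, h1, h2, h3⟩ := hpoint i
        obtain ⟨y', hy', h1', h2', h3'⟩ := hpoint j
        have : y = y' := by
          rw [h3, h3']
          exact hij
        apply hinj
        simp only
        rw [← h2, ← h2', this]
      · ext y
        constructor
        · rintro ⟨hy, hyz⟩
          have h1 := hPY y hy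
          rw [hyz] at h1
          obtain ⟨i, hi⟩ := (hroots _).1 h1
          refine ⟨i, ?_⟩
          funext j
          have := hRY y hy j
          rw [hyz, hi] at this
          simp only
          rw [this, mul_div_cancel_left₀ _ hδ2]
        · rintro ⟨i, rfl⟩
          obtain ⟨y, hy, h1, h2, h3⟩ := hpoint i
          simp only
          rw [← h3]
          exact ⟨hy, h1⟩

end W478T1
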