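import Mathlib

set_option autoImplicit false

open Polynomial

namespace W478T1

/-- clearing denominators of one polynomial -/
theorem clear_denom {B K : Type*} [CommRing B] [IsDomain B] [Field K] [Algebra B K]
    [IsFractionRing B K] (f : K[X]) :
    ∃ (b : B) (g : B[X]), b ≠ 0 ∧ g.map (algebraMap B K) = C (algebraMap B K b) * f := by
  obtain ⟨⟨b, hb⟩, h⟩ := IsLocalization.integerNormalization_map_to_map (nonZeroDivisors B) f
  refine ⟨b, IsLocalization.integerNormalization (nonZeroDivisors B) f,
    nonZeroDivisors.ne_zero hb, ?_⟩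
  rw [h, ← Polynomial.smul_eq_C_mul, algebraMap_smul]

theorem alg_core {B A : Type*} [CommRing B] [IsDomain B] [IsIntegrallyClosed B] [CharZero B]
    [CommRing A] [IsDomain A] [Algebra B A] [FaithfulSMul B A] [Module.Finite B A] {m : ℕ}
    (x : Fin m → A) :
    ∃ (α : A) (U V : B[X]) (d₁ d₂ : B) (R : Fin m → B[X]), d₁ ≠ 0 ∧ d₂ ≠ 0 ∧
      U * minpoly B α + V * derivative (minpoly B α) = C d₁ ∧
      ∀ j, aeval α (R j) = algebraMap B A d₂ * x j := by
  let K := FractionRing B
  let L := FractionRing A
  letI : Algebra K L := FractionRing.liftAlgebra B L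
  haveI : IsScalarTower B K L := inferInstance
  haveI : Algebra.IsIntegral B A := inferInstance
  haveI : FiniteDimensional K L := Module.Finite.of_isLocalization B A (nonZeroDivisors B)
  haveI : CharZero K := charZero_of_injective_algebraMap (IsFractionRing.injective B K)
  obtain ⟨β, hβ⟩ := Field.exists_primitive_element K L
  obtain ⟨⟨a, s, ⟨b, hb, rfl⟩⟩, hs⟩ :=
    IsLocalization.surj (Algebra.algebraMapSubmonoid A (nonZeroDivisors B)) β
  have hb0 : b ≠ 0 := nonZeroDivisors.ne_zero hb
  simp only at hs
  set α' : L := algebraMap A L a with hα'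
  have hbK : algebraMap B K b ≠ 0 := by
    simpa using hb0
  have hs' : β = algebraMap K L (algebraMap B K b)⁻¹ * α' := by
    rw [← hs, ← IsScalarTower.algebraMap_apply B A L, IsScalarTower.algebraMap_apply B K L,
      map_inv₀, mul_comm β, ← mul_assoc, inv_mul_cancel₀, one_mul]
    simpa using hbK
  have hα : IntermediateField.adjoin K {α'} = ⊤ := by
    rw [eq_top_iff, ← hβ, IntermediateField.adjoin_le_iff]
    rintro _ rfl
    rw [hs']
    exact mul_mem (IntermediateField.algebraMap_mem _ _)
      (IntermediateField.subset_adjoin K _ (Set.mem_singleton _))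
  have hint : IsIntegral B a := Algebra.IsIntegral.isIntegral a
  have hintK : IsIntegral K α' := Algebra.IsIntegral.isIntegral α'
  have hadj : Algebra.adjoin K {α'} = ⊤ := by
    have h := IntermediateField.adjoin_simple_toSubalgebra_of_isAlgebraic hintK.isAlgebraic
    rw [← h, hα, IntermediateField.top_toSubalgebra]
  have hP : minpoly K α' = (minpoly B a).map (algebraMap B K) :=
    minpoly.isIntegrallyClosed_eq_field_fractions K L hint
  have hsurj : ∀ y : A, ∃ (d : B) (R : B[X]), d ≠ 0 ∧ aeval a R = algebraMap B A d * y := by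
    intro y
    have : algebraMap A L y ∈ Algebra.adjoin K {α'} := by rw [hadj]; trivial
    rw [Algebra.adjoin_singleton_eq_range_aeval] at this
    obtain ⟨f, hf⟩ := this
    obtain ⟨d, R, hd, hR⟩ := clear_denom (B := B) f
    refine ⟨d, R, hd, ?_⟩
    apply IsFractionRing.injective A L
    have h1 : aeval α' (R.map (algebraMap B K)) = algebraMap A L (aeval a R) := by
      rw [aeval_map_algebraMap, hα', aeval_algebraMap_apply]
    rw [← h1, hR, map_mul, aeval_C, map_mul, ← IsScalarTower.algebraMap_apply B A L,
      IsScalarTower.algebraMap_apply B K L]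
    congr 1
  choose d R hd hR using fun j => hsurj (x j)
  have hsep : (minpoly K α').Separable := (minpoly.irreducible hintK).separable
  obtain ⟨u, v, huv⟩ := hsep
  obtain ⟨b₁, u', hb₁, hu'⟩ := clear_denom (B := B) u
  obtain ⟨b₂, v', hb₂, hv'⟩ := clear_denom (B := B) v
  refine ⟨a, C b₂ * u', C b₁ * v', b₁ * b₂, ∏ i, d i,
    fun j => C (∏ i ∈ Finset.univ.erase j, d i) * R j, mul_ne_zero hb₁ hb₂,
    Finset.prod_ne_zero_iff.mpr fun i _ => hd i, ?_, ?_⟩
  · apply Polynomial.map_injective _ (IsFractionRing.injective B K)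
    rw [Polynomial.map_add, Polynomial.map_mul, Polynomial.map_mul, Polynomial.map_mul,
      Polynomial.map_mul, hu', hv', Polynomial.map_C, Polynomial.map_C, Polynomial.map_C,
      ← Polynomial.derivative_map, ← hP]
    have : (C (algebraMap B K (b₁ * b₂)) : K[X]) =
        C (algebraMap B K b₁) * C (algebraMap B K b₂) * 1 := by
      rw [map_mul, map_mul, mul_one]
    rw [this, ← huv]
    ring
  · intro j
    rw [map_mul, aeval_C, hR j, ← mul_assoc, ← map_mul, mul_comm (∏ i ∈ _, d i),
      Finset.mul_prod_erase _ _ (Finset.mem_univ j)]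

end W478T1
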