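import Pool.Agent.W478.T1.Geo
import Pool.Agent.W489.Stubs

set_option autoImplicit false

open Polynomial Metric Set Topology

namespace W478T1

theorem contDiff_evalMv {k : ℕ} (D : MvPolynomial (Fin k) ℂ) :
    ContDiff ℂ 1 (fun z : Fin k → ℂ => MvPolynomial.eval z D) := by
  have h := (AnalyticOnNhd.aeval_mvPolynomial (𝕜 := ℂ) (A := ℂ) (B := ℂ) (s := Set.univ)
    (f := fun (z : Fin k → ℂ) (i : Fin k) => z i)
    (fun i => (ContinuousLinearMap.proj (R := ℂ) (φ := fun _ : Fin k => ℂ) i).analyticOnNhd _) D)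
  have h2 : ContDiff ℂ 1 (fun z : Fin k → ℂ => MvPolynomial.aeval z D) := by
    rw [← contDiffOn_univ]
    exact h.contDiffOn uniqueDiffOn_univ
  simpa [MvPolynomial.aeval_eq_eval] using h2

theorem contDiff_eval₂ {k : ℕ} (P : (MvPolynomial (Fin k) ℂ)[X]) :
    ContDiff ℂ 1 (fun w : (Fin k → ℂ) × ℂ => eval₂ (MvPolynomial.eval w.1) w.2 P) := by
  have : (fun w : (Fin k → ℂ) × ℂ => eval₂ (MvPolynomial.eval w.1) w.2 P) =
      fun w => ∑ i ∈ Finset.range (P.natDegree + 1), MvPolynomial.eval w.1 (P.coeff i) * w.2 ^ i := by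
    funext w
    rw [eval₂_eq_sum_range]
  rw [this]
  refine ContDiff.sum fun i _ => ?_
  exact ((contDiff_evalMv _).comp contDiff_fst).mul (contDiff_snd.pow i)

/-- properness estimate for one coordinate -/
theorem bound_root {k : ℕ} (Q : (MvPolynomial (Fin k) ℂ)[X]) (hQ : Q.Monic) (R : ℝ) :
    ∃ C : ℝ, ∀ (z : Fin k → ℂ) (t : ℂ), (∀ i, ‖z i‖ ≤ R) → eval₂ (MvPolynomial.eval z) t Q = 0 →
      ‖t‖ ≤ C := by
  by_cases hR : 0 ≤ R
  swap
  · by_cases hk : k = 0
    · subst hk
      refine ⟨(cauchyBound (Q.map (MvPolynomial.eval (0 : Fin 0 → ℂ)))), ?_⟩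
      intro z t _ ht
      have hz : z = 0 := Subsingleton.elim _ _
      subst hz
      rw [← eval_map] at ht
      have := IsRoot.norm_lt_cauchyBound (hQ.map (MvPolynomial.eval (0 : Fin 0 → ℂ))).ne_zero ht
      exact_mod_cast this.le
    · refine ⟨0, fun z t hz _ => ?_⟩
      exact absurd ((norm_nonneg _).trans (hz ⟨0, Nat.pos_of_ne_zero hk⟩)) hR
  have hcomp : IsCompact (closedBall (0 : Fin k → ℂ) R) := isCompact_closedBall _ _
  have hb : ∀ i, ∃ C : ℝ, ∀ z ∈ closedBall (0 : Fin k → ℂ) R,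
      ‖MvPolynomial.eval z (Q.coeff i)‖ ≤ C := fun i =>
    hcomp.exists_bound_of_continuousOn (MvPolynomial.continuous_eval _).continuousOn
  choose C hC using hb
  refine ⟨∑ i ∈ Finset.range Q.natDegree, |C i| + 1, ?_⟩
  intro z t hz ht
  have hz' : z ∈ closedBall (0 : Fin k → ℂ) R := by
    rw [mem_closedBall_zero_iff, pi_norm_le_iff_of_nonneg hR]
    exact hz
  rw [← eval_map] at ht
  have hm := hQ.map (MvPolynomial.eval z)
  have h1 := IsRoot.norm_lt_cauchyBound hm.ne_zero ht
  have h2 : (cauchyBound (Q.map (MvPolynomial.eval z)) : ℝ) ≤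
      ∑ i ∈ Finset.range Q.natDegree, |C i| + 1 := by
    unfold cauchyBound
    rw [hm.leadingCoeff, nnnorm_one, div_one, hQ.natDegree_map]
    push_cast
    gcongr
    have : (Finset.range Q.natDegree).sup (fun i => ‖(Q.map (MvPolynomial.eval z)).coeff i‖₊) ≤
        ∑ i ∈ Finset.range Q.natDegree, ⟨|C i|, abs_nonneg _⟩ := by
      apply Finset.sup_le
      intro i hi
      refine le_trans ?_ (Finset.single_le_sum (f := fun i => (⟨|C i|, abs_nonneg _⟩ : NNReal))
        (fun _ _ => zero_le) hi)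
      rw [← NNReal.coe_le_coe]
      simp only [coe_nnnorm, coeff_map]
      exact (hC i z hz').trans (le_abs_self _)
    have h3 : ((∑ i ∈ Finset.range Q.natDegree, (⟨|C i|, abs_nonneg _⟩ : NNReal) : NNReal) : ℝ) =
        ∑ i ∈ Finset.range Q.natDegree, |C i| := by
      push_cast
      rfl
    rw [← h3]
    exact_mod_cast this
  have h4 : ‖t‖ < cauchyBound (Q.map (MvPolynomial.eval z)) := by exact_mod_cast h1
  exact h4.le.trans h2


theorem isInvertible_of_apply_one {f : ℂ →L[ℂ] ℂ} (h : f 1 ≠ 0) : f.IsInvertible := by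
  refine ContinuousLinearMap.IsInvertible.of_inverse
    (g := ContinuousLinearMap.toSpanSingleton ℂ (f 1)⁻¹) ?_ ?_
  · ext
    simp only [ContinuousLinearMap.coe_comp, Function.comp_apply,
      ContinuousLinearMap.toSpanSingleton_apply, one_smul, ContinuousLinearMap.coe_id', id_eq]
    have : f ((f 1)⁻¹) = (f 1)⁻¹ • f 1 := by
      rw [← map_smul]; simp
    rw [this, smul_eq_mul, inv_mul_cancel₀ h]
  · ext
    simp only [ContinuousLinearMap.coe_comp, Function.comp_apply,
      ContinuousLinearMap.toSpanSingleton_apply, smul_eq_mul, ContinuousLinearMap.coe_id', id_eq]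
    exact mul_inv_cancel₀ h

/-- the roots of a monic polynomial over the polynomial ring, separable at `z`, are locally
holomorphic functions -/
theorem local_roots {k : ℕ} (P U V : (MvPolynomial (Fin k) ℂ)[X]) (hP : P.Monic)
    (d₁ : MvPolynomial (Fin k) ℂ) (hUV : U * P + V * derivative P = C d₁)
    (z : Fin k → ℂ) (hz : MvPolynomial.eval z d₁ ≠ 0) :
    ∃ (r : ℝ) (ψ : Fin P.natDegree → (Fin k → ℂ) → ℂ), 0 < r ∧
      (∀ i, DifferentiableOn ℂ (ψ i) (ball z r)) ∧
      ∀ z' ∈ ball z r, Function.Injective (fun i => ψ i z') ∧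
        ∀ t, eval₂ (MvPolynomial.eval z') t P = 0 ↔ ∃ i, t = ψ i z' := by
  classical
  set Pz := P.map (MvPolynomial.eval z) with hPz
  have hPzm : Pz.Monic := hP.map _
  have hid : U.map (MvPolynomial.eval z) * Pz + V.map (MvPolynomial.eval z) * derivative Pz =
      C (MvPolynomial.eval z d₁) := by
    rw [hPz, ← Polynomial.map_mul, derivative_map, ← Polynomial.map_mul, ← Polynomial.map_add, hUV,
      Polynomial.map_C]
  have hsep : Pz.Separable := by
    refine ⟨C (MvPolynomial.eval z d₁)⁻¹ * U.map (MvPolynomial.eval z),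
      C (MvPolynomial.eval z d₁)⁻¹ * V.map (MvPolynomial.eval z), ?_⟩
    rw [mul_assoc, mul_assoc, ← mul_add, hid, ← C_mul, inv_mul_cancel₀ hz, C_1]
  have hcard : Pz.roots.toFinset.card = P.natDegree := by
    rw [Multiset.toFinset_card_of_nodup (nodup_roots hsep), IsAlgClosed.card_roots_eq_natDegree,
      hPz, hP.natDegree_map]
  let en := (Finset.equivFinOfCardEq hcard).symm
  have hen : ∀ i, Pz.IsRoot (en i : ℂ) := by
    intro i
    have := (en i).2
    rw [Multiset.mem_toFinset, mem_roots hPzm.ne_zero] at this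
    exact this
  set F : (Fin k → ℂ) × ℂ → ℂ := fun w => eval₂ (MvPolynomial.eval w.1) w.2 P with hF
  have hFc : ContDiff ℂ 1 F := contDiff_eval₂ P
  have hF0 : ∀ i, F (z, (en i : ℂ)) = 0 := by
    intro i
    have h : eval (en i : ℂ) (P.map (MvPolynomial.eval z)) = 0 := hen i
    rw [eval_map] at h
    exact h
  have hinv : ∀ i, (fderiv ℂ F (z, (en i : ℂ)) ∘L .inr ℂ (Fin k → ℂ) ℂ).IsInvertible := by
    intro i
    apply isInvertible_of_apply_one
    have h1 : HasFDerivAt F (fderiv ℂ F (z, (en i : ℂ))) (z, (en i : ℂ)) :=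
      (hFc.differentiable one_ne_zero).differentiableAt.hasFDerivAt
    have h2 : HasFDerivAt (fun t : ℂ => ((z, t) : (Fin k → ℂ) × ℂ))
        (ContinuousLinearMap.inr ℂ (Fin k → ℂ) ℂ) (en i : ℂ) :=
      hasFDerivAt_prodMk_right z (en i : ℂ)
    have h3 := (h1.comp (en i : ℂ) h2).hasDerivAt
    have h4 : HasDerivAt (fun t : ℂ => eval t Pz) (eval (en i : ℂ) (derivative Pz)) (en i : ℂ) :=
      Pz.hasDerivAt _
    have h5 : (F ∘ fun t : ℂ => ((z, t) : (Fin k → ℂ) × ℂ)) = fun t : ℂ => eval t Pz := by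
      funext t
      simp only [Function.comp_apply, hF, hPz, eval_map]
    rw [h5] at h3
    rw [h3.unique h4]
    intro h0
    have h6 := congrArg (eval (en i : ℂ)) hid
    rw [eval_add, eval_mul, eval_mul, (hen i : eval _ Pz = 0), h0, mul_zero, mul_zero, add_zero,
      eval_C] at h6
    exact hz h6.symm
  let ψ : Fin P.natDegree → (Fin k → ℂ) → ℂ := fun i =>
    (hFc.contDiffAt (x := (z, (en i : ℂ)))).implicitFunction one_ne_zero (hinv i)
  have hψz : ∀ i, ψ i z = en i := fun i =>
    (hFc.contDiffAt (x := (z, (en i : ℂ)))).implicitFunction_apply_self one_ne_zero (hinv i)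
  have hψF : ∀ i, ∀ᶠ x in 𝓝 z, F (x, ψ i x) = 0 := by
    intro i
    have := (hFc.contDiffAt (x := (z, (en i : ℂ)))).eventually_apply_implicitFunction one_ne_zero
      (hinv i)
    simp only [hF0 i] at this
    exact this
  have hψc : ∀ i, ContDiffAt ℂ 1 (ψ i) z := fun i =>
    (hFc.contDiffAt (x := (z, (en i : ℂ)))).contDiffAt_implicitFunction one_ne_zero (hinv i)
  have hψd : ∀ i, ∀ᶠ x in 𝓝 z, DifferentiableAt ℂ (ψ i) x := by
    intro i
    filter_upwards [(hψc i).eventually (by simp)] with x hx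
    exact hx.differentiableAt one_ne_zero
  have hψne : ∀ i j, i ≠ j → ∀ᶠ x in 𝓝 z, ψ i x ≠ ψ j x := by
    intro i j hij
    apply (ContinuousAt.ne_iff_eventually_ne (hψc i).continuousAt (hψc j).continuousAt).1
    rw [hψz, hψz]
    intro h
    exact hij (en.injective (Subtype.ext h))
  have hall : ∀ᶠ x in 𝓝 z, (∀ i, F (x, ψ i x) = 0) ∧ (∀ i, DifferentiableAt ℂ (ψ i) x) ∧
      ∀ i j, i ≠ j → ψ i x ≠ ψ j x := by
    refine (Filter.eventually_all.2 hψF).and ((Filter.eventually_all.2 hψd).and ?_)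
    refine Filter.eventually_all.2 fun i => Filter.eventually_all.2 fun j => ?_
    by_cases hij : i = j
    · exact Filter.Eventually.of_forall fun x h => absurd hij h
    · filter_upwards [hψne i j hij] with x hx _
      exact hx
  obtain ⟨r, hr, hball⟩ := Metric.eventually_nhds_iff_ball.1 hall
  refine ⟨r, ψ, hr, fun i x hx => ((hball x hx).2.1 i).differentiableWithinAt, ?_⟩
  intro z' hz'
  obtain ⟨h1, -, h3⟩ := hball z' hz'
  have hinj : Function.Injective (fun i => ψ i z') := by
    intro i j hij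
    by_contra hne
    exact h3 i j hne hij
  refine ⟨hinj, fun t => ⟨fun ht => ?_, ?_⟩⟩
  · have hm : (P.map (MvPolynomial.eval z')).Monic := hP.map _
    have hsub : Finset.univ.image (fun i => ψ i z') ⊆
        (P.map (MvPolynomial.eval z')).roots.toFinset := by
      intro s hs
      rw [Finset.mem_image] at hs
      obtain ⟨i, -, rfl⟩ := hs
      rw [Multiset.mem_toFinset, mem_roots hm.ne_zero, IsRoot, eval_map]
      exact h1 i
    have hc : (P.map (MvPolynomial.eval z')).roots.toFinset.card ≤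
        (Finset.univ.image (fun i => ψ i z')).card := by
      rw [Finset.card_image_of_injective _ hinj, Finset.card_univ, Fintype.card_fin]
      refine (Multiset.toFinset_card_le _).trans ((card_roots' _).trans ?_)
      rw [hP.natDegree_map]
    have heq := Finset.eq_of_subset_of_card_le hsub hc
    have : t ∈ (P.map (MvPolynomial.eval z')).roots.toFinset := by
      rw [Multiset.mem_toFinset, mem_roots hm.ne_zero, IsRoot, eval_map]
      exact ht
    rw [← heq, Finset.mem_image] at this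
    obtain ⟨i, -, hi⟩ := this
    exact ⟨i, hi.symm⟩
  · rintro ⟨i, rfl⟩
    exact h1 i

end W478T1
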