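import Pool.Agent.W478.T1.Alg
import Pool.Agent.Helper113.Gorin.Defs

set_option autoImplicit false

open Polynomial H113G

namespace W478T1

theorem struct (m : ℕ) (Y : Set (Fin m → ℂ)) (hY : IsAlg Y) (hne : Y.Nonempty)
    (hirr : ∀ P Q : MvPolynomial (Fin m) ℂ, (∀ y ∈ Y, MvPolynomial.eval y (P * Q) = 0) →
      (∀ y ∈ Y, MvPolynomial.eval y P = 0) ∨ (∀ y ∈ Y, MvPolynomial.eval y Q = 0)) :
    ∃ (k : ℕ) (p : Fin k → MvPolynomial (Fin m) ℂ) (a : MvPolynomial (Fin m) ℂ)
      (P U V : (MvPolynomial (Fin k) ℂ)[X]) (d₁ d₂ : MvPolynomial (Fin k) ℂ)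
      (R Q : Fin m → (MvPolynomial (Fin k) ℂ)[X]),
      P.Monic ∧ d₁ ≠ 0 ∧ d₂ ≠ 0 ∧ U * P + V * derivative P = C d₁ ∧
      (∀ y ∈ Y, eval₂ (MvPolynomial.eval (fun i => MvPolynomial.eval y (p i)))
        (MvPolynomial.eval y a) P = 0) ∧
      (∀ y ∈ Y, ∀ j, eval₂ (MvPolynomial.eval (fun i => MvPolynomial.eval y (p i)))
        (MvPolynomial.eval y a) (R j) =
          MvPolynomial.eval (fun i => MvPolynomial.eval y (p i)) d₂ * y j) ∧
      (∀ (z : Fin k → ℂ) (τ : ℂ), eval₂ (MvPolynomial.eval z) τ P = 0 →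
        ∃ y ∈ Y, (fun i => MvPolynomial.eval y (p i)) = z ∧ MvPolynomial.eval y a = τ) ∧
      (∀ j, (Q j).Monic ∧ ∀ y ∈ Y,
        eval₂ (MvPolynomial.eval (fun i => MvPolynomial.eval y (p i))) (y j) (Q j) = 0) ∧
      (∀ D : MvPolynomial (Fin k) ℂ, D ≠ 0 → ∃ y ∈ Y,
        MvPolynomial.eval (fun i => MvPolynomial.eval y (p i)) D ≠ 0) := by
  set I : Ideal (MvPolynomial (Fin m) ℂ) := MvPolynomial.vanishingIdeal ℂ Y with hI
  have hmem : ∀ P, P ∈ I ↔ ∀ y ∈ Y, MvPolynomial.eval y P = 0 := by
    intro P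
    rw [hI, MvPolynomial.mem_vanishingIdeal_iff]
    simp [MvPolynomial.aeval_eq_eval]
  have hprime : I.IsPrime := by
    constructor
    · intro h
      obtain ⟨y, hy⟩ := hne
      have : (1 : MvPolynomial (Fin m) ℂ) ∈ I := by rw [h]; trivial
      have := (hmem 1).1 this y hy
      simp at this
    · intro P Q hPQ
      rcases hirr P Q ((hmem _).1 hPQ) with h | h
      · exact Or.inl ((hmem _).2 h)
      · exact Or.inr ((hmem _).2 h)
  let A := MvPolynomial (Fin m) ℂ ⧸ I
  haveI : IsDomain A := Ideal.Quotient.isDomain I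
  obtain ⟨k, g, ginj, gfin⟩ := exists_finite_inj_algHom_of_fg ℂ A
  let B := MvPolynomial (Fin k) ℂ
  letI algBA : Algebra B A := g.toRingHom.toAlgebra
  have hfin : Module.Finite B A := gfin
  have hfaith : FaithfulSMul B A := (faithfulSMul_iff_algebraMap_injective B A).mpr ginj
  haveI : Algebra.IsIntegral B A := inferInstance
  -- lifts
  have hlift : ∀ i, ∃ q : MvPolynomial (Fin m) ℂ, Ideal.Quotient.mk I q = g (MvPolynomial.X i) :=
    fun i => Ideal.Quotient.mk_surjective _
  choose p hp using hlift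
  obtain ⟨α, U, V, d₁, d₂, R, hd₁, hd₂, hUV, hR⟩ :=
    alg_core (B := B) (A := A) (m := m) (fun j => Ideal.Quotient.mk I (MvPolynomial.X j))
  obtain ⟨a, ha⟩ := Ideal.Quotient.mk_surjective (I := I) α
  -- evaluation maps
  have hφ : ∀ y ∈ Y, ∃ φ : A →+* ℂ, (∀ q, φ (Ideal.Quotient.mk I q) = MvPolynomial.eval y q) ∧
      φ.comp (algebraMap B A) = MvPolynomial.eval (fun i => MvPolynomial.eval y (p i)) := by
    intro y hy
    refine ⟨Ideal.Quotient.lift I (MvPolynomial.eval y) (fun q hq => (hmem q).1 hq y hy),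
      fun q => Ideal.Quotient.lift_mk _ _ _, ?_⟩
    apply MvPolynomial.ringHom_ext
    · intro c
      have h1 : (algebraMap B A) (MvPolynomial.C c) = Ideal.Quotient.mk I (MvPolynomial.C c) := by
        change g (MvPolynomial.C c) = _
        have := g.commutes c
        rw [MvPolynomial.algebraMap_eq] at this
        rw [this]
        rfl
      rw [RingHom.comp_apply, h1, Ideal.Quotient.lift_mk, MvPolynomial.eval_C,
        MvPolynomial.eval_C]
    · intro i
      have h1 : (algebraMap B A) (MvPolynomial.X i) = Ideal.Quotient.mk I (p i) := (hp i).symm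
      rw [RingHom.comp_apply, h1, Ideal.Quotient.lift_mk, MvPolynomial.eval_X]
  have hev : ∀ y ∈ Y, ∀ (F : B[X]) (q : MvPolynomial (Fin m) ℂ),
      ∃ φ : A →+* ℂ, (∀ q, φ (Ideal.Quotient.mk I q) = MvPolynomial.eval y q) ∧
      (∀ b : B, φ (algebraMap B A b) =
        MvPolynomial.eval (fun i => MvPolynomial.eval y (p i)) b) ∧
      φ (aeval (Ideal.Quotient.mk I q) F) =
        eval₂ (MvPolynomial.eval (fun i => MvPolynomial.eval y (p i)))
          (MvPolynomial.eval y q) F := by
    intro y hy F q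
    obtain ⟨φ, h1, h2⟩ := hφ y hy
    refine ⟨φ, h1, fun b => by rw [← h2]; rfl, ?_⟩
    rw [Polynomial.aeval_def, Polynomial.hom_eval₂, h2, h1]
  have hmonic : (minpoly B α).Monic := minpoly.monic (Algebra.IsIntegral.isIntegral α)
  refine ⟨k, p, a, minpoly B α, U, V, d₁, d₂, R,
    fun j => minpoly B (Ideal.Quotient.mk I (MvPolynomial.X j) : A), hmonic, hd₁, hd₂, hUV,
    ?_, ?_, ?_, ?_, ?_⟩
  · intro y hy
    obtain ⟨φ, h1, h2, h3⟩ := hev y hy (minpoly B α) a
    rw [← h3, ha, minpoly.aeval, map_zero]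
  · intro y hy j
    obtain ⟨φ, h1, h2, h3⟩ := hev y hy (R j) a
    rw [← h3, ha, hR j, map_mul, h1, h2, MvPolynomial.eval_X]
  · intro z τ hz
    let θ : B[X] →+* A := (aeval α : B[X] →ₐ[B] A).toRingHom
    letI algθ : Algebra B[X] A := θ.toAlgebra
    haveI : IsScalarTower B B[X] A := IsScalarTower.of_algebraMap_eq (fun b => by
      change _ = (aeval α : B[X] →ₐ[B] A) (algebraMap B B[X] b)
      simp)
    haveI : Algebra.IsIntegral B[X] A := Algebra.IsIntegral.tower_top B
    let E : B[X] →+* ℂ := eval₂RingHom (MvPolynomial.eval z) τ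
    have hEsurj : Function.Surjective E := by
      intro c
      refine ⟨C (MvPolynomial.C c), ?_⟩
      change eval₂ (MvPolynomial.eval z) τ (C (MvPolynomial.C c)) = c
      rw [eval₂_C]
      exact MvPolynomial.eval_C _
    haveI hJ : (RingHom.ker E).IsMaximal := RingHom.ker_isMaximal_of_surjective E hEsurj
    have hker : RingHom.ker (algebraMap B[X] A) ≤ RingHom.ker E := by
      have h1 := minpoly.ker_eval (R := B) (S := A) (s := α) (Algebra.IsIntegral.isIntegral α)
      have h2 : RingHom.ker (algebraMap B[X] A) = Ideal.span {minpoly B α} := h1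
      rw [h2, Ideal.span_singleton_le_iff_mem, RingHom.mem_ker]
      exact hz
    obtain ⟨Q, hQmax, hQ⟩ :=
      Ideal.exists_ideal_over_maximal_of_isIntegral (R := B[X]) (S := A) (RingHom.ker E) hker
    have hMmax : (Q.comap (Ideal.Quotient.mk I)).IsMaximal :=
      Ideal.comap_isMaximal_of_surjective _ Ideal.Quotient.mk_surjective
    obtain ⟨y, hyM⟩ := MvPolynomial.isMaximal_iff_eq_vanishingIdeal_singleton.mp hMmax
    have hy' : ∀ q, Ideal.Quotient.mk I q ∈ Q → MvPolynomial.eval y q = 0 := by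
      intro q hq
      have : q ∈ MvPolynomial.vanishingIdeal ℂ {y} := by rw [← hyM]; exact hq
      rw [MvPolynomial.mem_vanishingIdeal_singleton_iff, MvPolynomial.aeval_eq_eval] at this
      exact this
    have hyY : y ∈ Y := by
      obtain ⟨S, hS⟩ := hY
      have : ∀ P ∈ S, MvPolynomial.eval y P = 0 := by
        intro P hP
        apply hy'
        have : Ideal.Quotient.mk I P = 0 := by
          rw [Ideal.Quotient.eq_zero_iff_mem, hmem]
          intro y₁ hy₁
          rw [hS] at hy₁
          exact hy₁ P hP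
        rw [this]
        exact Q.zero_mem
      rw [hS]
      exact this
    have hQ' : ∀ F : B[X], E F = 0 → θ F ∈ Q := by
      intro F hF
      have : F ∈ Q.comap (algebraMap B[X] A) := by rw [hQ]; exact hF
      exact this
    refine ⟨y, hyY, ?_, ?_⟩
    · funext i
      have h1 : θ (C (MvPolynomial.X i - MvPolynomial.C (z i))) =
          Ideal.Quotient.mk I (p i - MvPolynomial.C (z i)) := by
        change (aeval α : B[X] →ₐ[B] A) _ = _
        rw [aeval_C, map_sub, map_sub, hp i]
        congr 1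
        change g (MvPolynomial.C (z i)) = _
        have := g.commutes (z i)
        rw [MvPolynomial.algebraMap_eq] at this
        rw [this]
        rfl
      have h2 := hy' (p i - MvPolynomial.C (z i)) (by
        rw [← h1]
        apply hQ'
        change eval₂ (MvPolynomial.eval z) τ (C (MvPolynomial.X i - MvPolynomial.C (z i))) = 0
        rw [eval₂_C]
        change MvPolynomial.eval z (MvPolynomial.X i - MvPolynomial.C (z i)) = 0
        rw [map_sub, MvPolynomial.eval_X, MvPolynomial.eval_C, sub_self])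
      rw [map_sub, MvPolynomial.eval_C] at h2
      exact sub_eq_zero.mp h2
    · have h1 : θ (X - C (MvPolynomial.C τ)) =
          Ideal.Quotient.mk I (a - MvPolynomial.C τ) := by
        change (aeval α : B[X] →ₐ[B] A) _ = _
        rw [map_sub, map_sub, aeval_X, aeval_C, ha]
        congr 1
        change g (MvPolynomial.C τ) = _
        have := g.commutes τ
        rw [MvPolynomial.algebraMap_eq] at this
        rw [this]
        rfl
      have h2 := hy' (a - MvPolynomial.C τ) (by
        rw [← h1]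
        apply hQ'
        change eval₂ (MvPolynomial.eval z) τ (X - C (MvPolynomial.C τ)) = 0
        rw [eval₂_sub, eval₂_X, eval₂_C]
        change τ - MvPolynomial.eval z (MvPolynomial.C τ) = 0
        rw [MvPolynomial.eval_C, sub_self])
      rw [map_sub, MvPolynomial.eval_C] at h2
      exact sub_eq_zero.mp h2
  · intro j
    refine ⟨minpoly.monic (Algebra.IsIntegral.isIntegral _), ?_⟩
    intro y hy
    obtain ⟨φ, h1, h2, h3⟩ := hev y hy
      (minpoly B (Ideal.Quotient.mk I (MvPolynomial.X j) : A)) (MvPolynomial.X j)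
    rw [MvPolynomial.eval_X] at h3
    rw [← h3, minpoly.aeval, map_zero]
  · intro D hD
    have h1 : algebraMap B A D ≠ 0 := by
      intro h
      apply hD
      apply ginj
      rw [map_zero]
      exact h
    obtain ⟨q, hq⟩ := Ideal.Quotient.mk_surjective (I := I) (algebraMap B A D)
    have h2 : q ∉ I := by
      intro h
      apply h1
      rw [← hq, Ideal.Quotient.eq_zero_iff_mem]
      exact h
    rw [hmem] at h2
    push Not at h2
    obtain ⟨y, hy, hyq⟩ := h2
    obtain ⟨φ, h3, h4⟩ := hφ y hy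
    refine ⟨y, hy, ?_⟩
    rw [← h4, RingHom.comp_apply, ← hq, h3]
    exact hyq

end W478T1
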